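import Mathlib

/-!
Definitions for lattice identities and quasi-identities, central real hyperplane arrangements,
their regions and the set of hyperplanes separating two regions.
-/

set_option autoImplicit false

namespace Pool.Agent.H400Z.Reg

universe u

/-- Lattice terms in the language `(∨, ∧)`, with variables indexed by natural numbers. -/
inductive LTerm : Type
  | var : ℕ → LTerm
  | sup : LTerm → LTerm → LTerm
  | inf : LTerm → LTerm → LTerm

/-- The value of a lattice term in a lattice `L` under an assignment `v` of the variables. -/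
def LTerm.eval {L : Type u} [Lattice L] (v : ℕ → L) : LTerm → L
  | .var n => v n
  | .sup a b => a.eval v ⊔ b.eval v
  | .inf a b => a.eval v ⊓ b.eval v

/-- The lattice identity `p = q` holds in the lattice `L`. -/
def HoldsIdentity (L : Type u) [Lattice L] (p q : LTerm) : Prop :=
  ∀ v : ℕ → L, p.eval v = q.eval v

/-- The quasi-identity `(p₁ = q₁ & ... & pₖ = qₖ) ⇒ p = q`, whose premises are the pairs
`(pᵢ, qᵢ)` of the list `prem`, holds in the lattice `L`. -/
def HoldsQuasi (L : Type u) [Lattice L] (prem : List (LTerm × LTerm)) (p q : LTerm) : Prop :=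
  ∀ v : ℕ → L, (∀ e ∈ prem, e.1.eval v = e.2.eval v) → p.eval v = q.eval v

/-- A central hyperplane arrangement in `ℝ^d`: a finite set of linear subspaces of
dimension `d - 1`. -/
structure Arrangement (d : ℕ) where
  /-- the hyperplanes -/
  hyps : Finset (Submodule ℝ (Fin d → ℝ))
  /-- each member has codimension one -/
  codim : ∀ H ∈ hyps, Module.finrank ℝ H + 1 = d

/-- The complement in `ℝ^d` of the union of the hyperplanes. -/
def Arrangement.compl {d : ℕ} (A : Arrangement d) : Set (Fin d → ℝ) :=
  {x | ∀ H ∈ A.hyps, x ∉ H}

/-- A region of the arrangement: a connected component of the complement. -/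
@[ext] structure Region {d : ℕ} (A : Arrangement d) where
  /-- the underlying subset of `ℝ^d` -/
  carrier : Set (Fin d → ℝ)
  /-- it is a connected component of the complement -/
  isComponent : ∃ x ∈ A.compl, carrier = connectedComponentIn A.compl x

/-- The hyperplane `H` separates the sets `R` and `B`: they lie in opposite open half-spaces
bounded by `H`. -/
def Separates {d : ℕ} (H : Submodule ℝ (Fin d → ℝ)) (R B : Set (Fin d → ℝ)) : Prop :=
  ∃ f : (Fin d → ℝ) →ₗ[ℝ] ℝ, LinearMap.ker f = H ∧ (∀ x ∈ R, f x < 0) ∧ (∀ y ∈ B, 0 < f y)

/-- `S(R)`: the set of hyperplanes of the arrangement separating `R` from the base region `B`. -/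
def sepSet {d : ℕ} {A : Arrangement d} (B R : Region A) : Set (Submodule ℝ (Fin d → ℝ)) :=
  {H | H ∈ A.hyps ∧ Separates H R.carrier B.carrier}

end Pool.Agent.H400Z.Reg
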