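import Mathlib
import Pool.Agent.H400Z.Reg.Defs

set_option autoImplicit false

namespace Pool.Agent.H400Z.Reg

open Set Filter Topology

variable {d : ℕ} {A : Arrangement d}

theorem Region.subset_compl (R : Region A) : R.carrier ⊆ A.compl := by
  obtain ⟨x, _, h⟩ := R.isComponent
  rw [h]; exact connectedComponentIn_subset _ _

theorem Region.nonempty (R : Region A) : R.carrier.Nonempty := by
  obtain ⟨x, hx, h⟩ := R.isComponent
  exact ⟨x, h ▸ mem_connectedComponentIn hx⟩

theorem Region.preconn (R : Region A) : IsPreconnected R.carrier := by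
  obtain ⟨x, _, h⟩ := R.isComponent
  rw [h]; exact isPreconnected_connectedComponentIn

theorem Region.eq_component (R : Region A) {x : Fin d → ℝ} (hx : x ∈ R.carrier) :
    R.carrier = connectedComponentIn A.compl x := by
  obtain ⟨y, _, h⟩ := R.isComponent
  rw [h] at hx ⊢
  exact connectedComponentIn_eq hx

theorem Region.neg_of_neg (R : Region A) {f : (Fin d → ℝ) →ₗ[ℝ] ℝ}
    (hf : LinearMap.ker f ∈ A.hyps) {x y : Fin d → ℝ} (hx : x ∈ R.carrier) (hy : y ∈ R.carrier)
    (h : f x < 0) : f y < 0 := by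
  by_contra hn
  push Not at hn
  have hc : Continuous f := f.continuous_of_finiteDimensional
  have := R.preconn.intermediate_value hx hy hc.continuousOn
  obtain ⟨z, hz, hz0⟩ := this ⟨h.le, hn⟩
  exact R.subset_compl hz _ hf (LinearMap.mem_ker.2 hz0)

theorem Region.pos_of_pos (R : Region A) {f : (Fin d → ℝ) →ₗ[ℝ] ℝ}
    (hf : LinearMap.ker f ∈ A.hyps) {x y : Fin d → ℝ} (hx : x ∈ R.carrier) (hy : y ∈ R.carrier)
    (h : 0 < f x) : 0 < f y := by
  have hf' : LinearMap.ker (-f) ∈ A.hyps := by rwa [LinearMap.ker_neg]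
  have := R.neg_of_neg hf' hx hy (by simpa using h)
  simpa using this

theorem mem_sepSet_iff (B R : Region A) {f : (Fin d → ℝ) →ₗ[ℝ] ℝ}
    (hf : LinearMap.ker f ∈ A.hyps) {b x : Fin d → ℝ} (hb : b ∈ B.carrier) (hfb : 0 < f b)
    (hx : x ∈ R.carrier) : LinearMap.ker f ∈ sepSet B R ↔ f x < 0 := by
  constructor
  · rintro ⟨_, g, hg, hR, hB⟩
    by_contra hn
    push Not at hn
    have h0 : f x ≠ 0 := fun h => R.subset_compl hx _ hf (LinearMap.mem_ker.2 h)
    have hpos : 0 < f x := lt_of_le_of_ne hn (Ne.symm h0)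
    have hz : f b • x - f x • b ∈ LinearMap.ker f := by
      simp [LinearMap.mem_ker, mul_comm]
    rw [← hg, LinearMap.mem_ker] at hz
    simp only [map_sub, map_smul, smul_eq_mul] at hz
    have h1 := hR x hx
    have h2 := hB b hb
    nlinarith [mul_pos hpos h2, mul_pos hfb (neg_pos.2 h1)]
  · intro h
    exact ⟨hf, f, rfl, fun y hy => R.neg_of_neg hf hx hy h, fun y hy => B.pos_of_pos hf hb hy hfb⟩

theorem exists_normal {H : Submodule ℝ (Fin d → ℝ)} (hH : H ∈ A.hyps) {b : Fin d → ℝ}
    (hb : b ∈ A.compl) : ∃ f : (Fin d → ℝ) →ₗ[ℝ] ℝ, LinearMap.ker f = H ∧ f b = 1 := by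
  obtain ⟨g, hg, hle⟩ := Submodule.exists_le_ker_of_notMem (hb H hH)
  have hker : LinearMap.ker g = H := by
    symm
    apply Submodule.eq_of_le_of_finrank_le hle
    have h1 : g ≠ 0 := by rintro rfl; simp at hg
    have h2 := Module.Dual.finrank_ker_add_one_of_ne_zero h1
    have h3 := A.codim H hH
    simp at h2
    omega
  refine ⟨(g b)⁻¹ • g, ?_, ?_⟩
  · rw [LinearMap.ker_smul _ _ (inv_ne_zero hg), hker]
  · simp [inv_mul_cancel₀ hg]

theorem sepSet_injective (B : Region A) : Function.Injective (sepSet B) := by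
  intro R R' h
  obtain ⟨b, hb⟩ := B.nonempty
  obtain ⟨x, hx⟩ := R.nonempty
  obtain ⟨y, hy⟩ := R'.nonempty
  have hseg : segment ℝ x y ⊆ A.compl := by
    rintro z ⟨s, t, hs, ht, hst, rfl⟩ H hH hz
    obtain ⟨f, hf, hfb⟩ := exists_normal hH (B.subset_compl hb)
    have hf' : LinearMap.ker f ∈ A.hyps := hf ▸ hH
    have h1 := mem_sepSet_iff B R hf' hb (by rw [hfb]; exact one_pos) hx
    have h2 := mem_sepSet_iff B R' hf' hb (by rw [hfb]; exact one_pos) hy
    rw [h] at h1
    have h3 : f x < 0 ↔ f y < 0 := h1.symm.trans h2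
    have hx0 : f x ≠ 0 := fun h => R.subset_compl hx _ hf' (LinearMap.mem_ker.2 h)
    have hy0 : f y ≠ 0 := fun h => R'.subset_compl hy _ hf' (LinearMap.mem_ker.2 h)
    rw [← hf, LinearMap.mem_ker] at hz
    simp only [map_add, map_smul, smul_eq_mul] at hz
    rcases lt_or_gt_of_ne hx0 with hlt | hgt
    · have := h3.1 hlt
      rcases eq_or_lt_of_le hs with rfl | hs'
      · simp at hst; subst hst; simp at hz; exact hy0 hz
      · nlinarith [mul_pos hs' (neg_pos.2 hlt), mul_nonneg ht (neg_pos.2 this).le]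
    · have : 0 < f y := by
        rcases lt_or_gt_of_ne hy0 with h' | h'
        · exact absurd (h3.2 h') (not_lt.2 hgt.le)
        · exact h'
      rcases eq_or_lt_of_le hs with rfl | hs'
      · simp at hst; subst hst; simp at hz; exact hy0 hz
      · nlinarith [mul_pos hs' hgt, mul_nonneg ht this.le]
  have hy' : y ∈ connectedComponentIn A.compl x :=
    (convex_segment x y).isPreconnected.subset_connectedComponentIn (left_mem_segment ℝ x y) hseg
      (right_mem_segment ℝ x y)
  apply Region.ext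
  rw [R.eq_component hx, R'.eq_component hy]
  exact connectedComponentIn_eq hy'

end Pool.Agent.H400Z.Reg
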