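import Mathlib
import Pool.Agent.H400Z.Reg.Defs
import Pool.Agent.H400Z.Reg.Basic

/-!
The poset of regions `Pos(H, B)` and its Dedekind-MacNeille completion `DM(H, B)`.
-/

set_option autoImplicit false

namespace Pool.Agent.H400Z.Reg

/-- The poset of regions with base region `B`: its elements are the regions. -/
def Pos {d : ℕ} {A : Arrangement d} (_B : Region A) : Type := Region A

/-- The order of the poset of regions: `R ≤ R'` iff `S(R) ⊆ S(R')`. -/
instance {d : ℕ} {A : Arrangement d} (B : Region A) : PartialOrder (Pos B) :=
  PartialOrder.lift (fun R : Region A => sepSet B R) (sepSet_injective B)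

/-- The Dedekind-MacNeille completion of the poset of regions with base region `B`. -/
abbrev DM {d : ℕ} {A : Arrangement d} (B : Region A) : Type := DedekindCut (Pos B)

end Pool.Agent.H400Z.Reg
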