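import Mathlib
import Pool.Agent.H400Z.Reg.Pos

set_option autoImplicit false

namespace Pool.Agent.H400Z.Reg

open Set Filter Topology

theorem perturb {V ι : Type} [AddCommGroup V] [Module ℝ V] [Finite ι] (f : ι → V →ₗ[ℝ] ℝ)
    (y z : V) (h : ∀ i, f i y = 0 → f i z ≠ 0) :
    ∃ x : V, ∀ i, f i x ≠ 0 ∧ (f i x < 0 ↔ f i y < 0 ∨ (f i y = 0 ∧ f i z < 0)) := by
  have key : ∀ i, ∀ᶠ t : ℝ in 𝓝[>] 0, f i (y + t • z) ≠ 0 ∧
      (f i (y + t • z) < 0 ↔ f i y < 0 ∨ (f i y = 0 ∧ f i z < 0)) := by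
    intro i
    have hc : Tendsto (fun t : ℝ => f i y + t * f i z) (𝓝[>] 0) (𝓝 (f i y)) := by
      have : Continuous (fun t : ℝ => f i y + t * f i z) := by fun_prop
      have h2 := this.tendsto 0
      simp only [zero_mul, add_zero] at h2
      exact h2.mono_left nhdsWithin_le_nhds
    simp only [map_add, map_smul, smul_eq_mul]
    rcases lt_trichotomy (f i y) 0 with hlt | heq | hgt
    · filter_upwards [hc.eventually (gt_mem_nhds hlt)] with t ht
      exact ⟨ht.ne, by simp [ht, hlt]⟩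
    · filter_upwards [self_mem_nhdsWithin] with t ht
      have ht' : 0 < t := ht
      have hz := h i heq
      rw [heq]
      refine ⟨by simpa using ⟨ht'.ne', hz⟩, ?_⟩
      simp only [zero_add, lt_self_iff_false, true_and, false_or]
      constructor
      · intro h1; by_contra h2; push Not at h2; nlinarith [mul_nonneg ht'.le h2]
      · intro h1; exact mul_neg_of_pos_of_neg ht' h1
    · filter_upwards [hc.eventually (lt_mem_nhds hgt)] with t ht
      refine ⟨ht.ne', ?_⟩
      constructor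
      · intro h1; exact absurd h1 (not_lt.2 ht.le)
      · rintro (h1 | ⟨h1, _⟩)
        · exact absurd h1 (not_lt.2 hgt.le)
        · exact absurd h1 hgt.ne'
  obtain ⟨t, ht⟩ := (Filter.eventually_all.2 key).exists
  exact ⟨y + t • z, ht⟩

/-- the region containing a point of the complement -/
def regOf {d : ℕ} {A : Arrangement d} (x : Fin d → ℝ) (hx : x ∈ A.compl) : Region A :=
  ⟨connectedComponentIn A.compl x, x, hx, rfl⟩

theorem mem_regOf {d : ℕ} {A : Arrangement d} (x : Fin d → ℝ) (hx : x ∈ A.compl) :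
    x ∈ (regOf x hx).carrier := mem_connectedComponentIn hx

theorem pos_le_iff {d : ℕ} {A : Arrangement d} (B : Region A) (R R' : Pos B) :
    R ≤ R' ↔ sepSet B R ⊆ sepSet B R' := Iff.rfl

/-- A description of a preorder by sign vectors of a finite family of functionals. -/
structure SignSys {V ι : Type} [AddCommGroup V] [Module ℝ V] (f : ι → V →ₗ[ℝ] ℝ)
    (P : Type) [Preorder P] where
  reg : {x : V // ∀ i, f i x ≠ 0} → P
  surj : Function.Surjective reg
  le_iff : ∀ x y, reg x ≤ reg y ↔ ∀ i, f i x.1 < 0 → f i y.1 < 0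

theorem exists_arr {κ ι : Type} [Fintype κ] [Fintype ι] {d : ℕ} (hd : Fintype.card κ ≤ d)
    (f : ι → (κ → ℝ) →ₗ[ℝ] ℝ) (b : κ → ℝ) (hb : ∀ i, 0 < f i b) :
    ∃ (A : Arrangement d) (B : Region A), Nonempty (SignSys f (Pos B)) := by
  classical
  let e : κ → Fin d := fun k => Fin.castLE hd (Fintype.equivFin κ k)
  have he : Function.Injective e := fun a b h =>
    (Fintype.equivFin κ).injective (Fin.castLE_injective hd h)
  let π : (Fin d → ℝ) →ₗ[ℝ] (κ → ℝ) := LinearMap.funLeft ℝ ℝ e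
  have hπ : Function.Surjective π := LinearMap.funLeft_surjective_of_injective ℝ ℝ e he
  choose s hs using hπ
  let g : ι → (Fin d → ℝ) →ₗ[ℝ] ℝ := fun i => (f i).comp π
  have hg : ∀ i x, g i (s x) = f i x := fun i x => by simp [g, hs]
  let A : Arrangement d :=
    { hyps := Finset.univ.image (fun i => LinearMap.ker (g i))
      codim := by
        intro H hH
        obtain ⟨i, _, rfl⟩ := Finset.mem_image.1 hH
        have h1 : g i ≠ 0 := by
          intro h0
          have := hg i b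
          rw [h0] at this
          exact (hb i).ne (by simpa using this)
        simpa using Module.Dual.finrank_ker_add_one_of_ne_zero h1 }
  have hA : ∀ i, LinearMap.ker (g i) ∈ A.hyps := fun i =>
    Finset.mem_image.2 ⟨i, Finset.mem_univ _, rfl⟩
  have hc : ∀ x : Fin d → ℝ, x ∈ A.compl ↔ ∀ i, g i x ≠ 0 := by
    intro x
    constructor
    · intro h i h0; exact h _ (hA i) (LinearMap.mem_ker.2 h0)
    · intro h H hH hx
      obtain ⟨i, _, rfl⟩ := Finset.mem_image.1 hH
      exact h i (LinearMap.mem_ker.1 hx)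
  have hsb : s b ∈ A.compl := (hc _).2 fun i => by rw [hg]; exact (hb i).ne'
  let B : Region A := regOf (s b) hsb
  have hsx : ∀ x : {x : κ → ℝ // ∀ i, f i x ≠ 0}, s x.1 ∈ A.compl := fun x =>
    (hc _).2 fun i => by rw [hg]; exact x.2 i
  have hmem : ∀ (R : Region A) (x : Fin d → ℝ), x ∈ R.carrier → ∀ i,
      (LinearMap.ker (g i) ∈ sepSet B R ↔ g i x < 0) := fun R x hx i =>
    mem_sepSet_iff B R (hA i) (mem_regOf _ hsb) (by rw [hg]; exact hb i) hx
  have hsub : ∀ (R R' : Region A) (x y : Fin d → ℝ), x ∈ R.carrier → y ∈ R'.carrier →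
      (sepSet B R ⊆ sepSet B R' ↔ ∀ i, g i x < 0 → g i y < 0) := by
    intro R R' x y hx hy
    constructor
    · intro h i hi
      exact (hmem R' y hy i).1 (h ((hmem R x hx i).2 hi))
    · intro h H hH
      obtain ⟨i, _, rfl⟩ := Finset.mem_image.1 hH.1
      exact (hmem R' y hy i).2 (h i ((hmem R x hx i).1 hH))
  refine ⟨A, B, ⟨⟨fun x => regOf (s x.1) (hsx x), ?_, ?_⟩⟩⟩
  · intro R
    obtain ⟨y, hy⟩ := Region.nonempty (A := A) R
    have hy' := (hc y).1 (Region.subset_compl (A := A) R hy)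
    refine ⟨⟨π y, fun i => hy' i⟩, ?_⟩
    apply sepSet_injective B
    apply Set.Subset.antisymm
    · refine (hsub _ R _ y (mem_regOf _ _) hy).2 fun i hi => ?_
      rw [hg] at hi; exact hi
    · refine (hsub R _ y _ hy (mem_regOf _ _)).2 fun i hi => ?_
      rw [hg]; exact hi
  · intro x y
    rw [pos_le_iff, hsub _ _ _ _ (mem_regOf _ _) (mem_regOf _ _)]
    simp only [hg]

theorem exists_signSys {d : ℕ} {A : Arrangement d} (B : Region A) :
    ∃ (f : A.hyps → (Fin d → ℝ) →ₗ[ℝ] ℝ) (b : Fin d → ℝ), (∀ i, f i b = 1) ∧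
      Function.Injective f ∧ Nonempty (SignSys f (Pos B)) := by
  obtain ⟨b, hb⟩ := B.nonempty
  have h := fun H : A.hyps => exists_normal H.2 (B.subset_compl hb)
  choose f hf hfb using h
  have hA : ∀ i, LinearMap.ker (f i) ∈ A.hyps := fun i => by rw [hf]; exact i.2
  have hc : ∀ x : Fin d → ℝ, x ∈ A.compl ↔ ∀ i, f i x ≠ 0 := by
    intro x
    constructor
    · intro h i h0; exact h _ (hA i) (LinearMap.mem_ker.2 h0)
    · intro h H hH hx
      apply h ⟨H, hH⟩
      rw [← LinearMap.mem_ker, hf]; exact hx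
  have hsub : ∀ (R R' : Region A) (x y : Fin d → ℝ), x ∈ R.carrier → y ∈ R'.carrier →
      (sepSet B R ⊆ sepSet B R' ↔ ∀ i, f i x < 0 → f i y < 0) := by
    intro R R' x y hx hy
    have hmem : ∀ (R : Region A) (x : Fin d → ℝ), x ∈ R.carrier → ∀ i,
        (LinearMap.ker (f i) ∈ sepSet B R ↔ f i x < 0) := fun R x hx i =>
      mem_sepSet_iff B R (hA i) hb (by rw [hfb]; exact one_pos) hx
    constructor
    · intro h i hi
      exact (hmem R' y hy i).1 (h ((hmem R x hx i).2 hi))
    · intro h H hH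
      have e : H = LinearMap.ker (f ⟨H, hH.1⟩) := (hf ⟨H, hH.1⟩).symm
      have hH' := hH
      rw [e] at hH' ⊢
      exact (hmem R' y hy _).2 (h _ ((hmem R x hx _).1 hH'))
  refine ⟨f, b, hfb, ?_, ⟨⟨fun x => regOf x.1 ((hc _).2 x.2), ?_, ?_⟩⟩⟩
  · intro i j hij
    apply Subtype.ext
    rw [← hf i, ← hf j, hij]
  · intro R
    obtain ⟨y, hy⟩ := Region.nonempty (A := A) R
    refine ⟨⟨y, (hc y).1 (Region.subset_compl (A := A) R hy)⟩, ?_⟩
    apply Region.ext
    exact (Region.eq_component (A := A) R hy).symm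
  · intro x y
    rw [pos_le_iff, hsub _ _ _ _ (mem_regOf _ _) (mem_regOf _ _)]

section cuts
variable {P : Type} [Preorder P]

theorem mem_left_iff (X : DedekindCut P) (p : P) : p ∈ X.left ↔ ∀ r ∈ X.right, p ≤ r := by
  rw [← DedekindCut.lowerBounds_right]; rfl

theorem mem_right_iff (X : DedekindCut P) (r : P) : r ∈ X.right ↔ ∀ p ∈ X.left, p ≤ r := by
  rw [← DedekindCut.upperBounds_left]; rfl

theorem mem_right_sup (X Y : DedekindCut P) (r : P) :
    r ∈ (X ⊔ Y).right ↔ r ∈ X.right ∧ r ∈ Y.right := by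
  simp only [← DedekindCut.le_principal_iff, sup_le_iff]

theorem mem_left_inf (X Y : DedekindCut P) (p : P) :
    p ∈ (X ⊓ Y).left ↔ p ∈ X.left ∧ p ∈ Y.left := by
  simp only [← DedekindCut.principal_le_iff, le_inf_iff]

theorem cut_le_iff (X Y : DedekindCut P) : X ≤ Y ↔ ∀ p ∈ X.left, p ∈ Y.left :=
  Concept.extent_subset_extent_iff.symm

end cuts

end Pool.Agent.H400Z.Reg
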