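import Mathlib
import Pool.Agent.H400Z.Reg.Sign

set_option autoImplicit false

namespace Pool.Agent.H400Z.Reg

open Set

universe u

/-- depth of a term -/
def LTerm.depth : LTerm → ℕ
  | .var _ => 0
  | .sup a b => max a.depth b.depth + 1
  | .inf a b => max a.depth b.depth + 1

/-- list of the values of all subterms -/
def LTerm.vals {K : Type u} [Lattice K] (v : ℕ → K) : LTerm → List K
  | .var n => [v n]
  | .sup a b => (a.eval v ⊔ b.eval v) :: (a.vals v ++ b.vals v)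
  | .inf a b => (a.eval v ⊓ b.eval v) :: (a.vals v ++ b.vals v)

theorem LTerm.eval_mem_vals {K : Type u} [Lattice K] (v : ℕ → K) (t : LTerm) :
    t.eval v ∈ t.vals v := by
  cases t <;> simp [LTerm.vals, LTerm.eval]

namespace Dim5

variable {K : Type u} [Lattice K] (M : ℕ) (lab : ℕ → K)

/-- atoms -/
abbrev Atom : Type :=
  {x : Fin M × Fin M // ¬ lab x.2 ≤ lab x.1} ⊕ {x : Fin M × Fin M // x.1 < x.2} ⊕
    {x : Fin M × Fin M // x.1 < x.2}

/-- a functional on `ℝ^5` given by its coefficients -/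
def lin (a b c d e : ℝ) : (Fin 5 → ℝ) →ₗ[ℝ] ℝ where
  toFun x := a * x 0 + b * x 1 + c * x 2 + d * x 3 + e * x 4
  map_add' x y := by simp only [Pi.add_apply]; ring
  map_smul' t x := by simp only [Pi.smul_apply, smul_eq_mul, RingHom.id_apply]; ring

@[simp] theorem lin_apply (a b c d e : ℝ) (x : Fin 5 → ℝ) :
    lin a b c d e x = a * x 0 + b * x 1 + c * x 2 + d * x 3 + e * x 4 := rfl

/-- the functionals -/
def fn : Atom M lab → (Fin 5 → ℝ) →ₗ[ℝ] ℝ
  | .inl x => lin 1 (x.1.1 : ℕ) ((x.1.1 : ℕ) ^ 2) (x.1.2 : ℕ) ((x.1.2 : ℕ) ^ 2)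
  | .inr (.inl x) => lin 0 0 0 (((x.1.1 : ℕ) : ℝ) - (x.1.2 : ℕ)) (((x.1.1 : ℕ) : ℝ) ^ 2 - (x.1.2 : ℕ) ^ 2)
  | .inr (.inr x) => lin 0 (((x.1.1 : ℕ) : ℝ) - (x.1.2 : ℕ)) (((x.1.1 : ℕ) : ℝ) ^ 2 - (x.1.2 : ℕ) ^ 2) 0 0

/-- base point -/
def base : Fin 5 → ℝ := ![2 * M + 1, -1, 0, -1, 0]

theorem fn_base (a : Atom M lab) : 0 < fn M lab a (base M) := by
  rcases a with ⟨⟨i, j⟩, h⟩ | ⟨⟨i, j⟩, h⟩ | ⟨⟨i, j⟩, h⟩
  · have h1 : ((i : ℕ) : ℝ) < M := by exact_mod_cast i.2
    have h2 : ((j : ℕ) : ℝ) < M := by exact_mod_cast j.2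
    simp [fn, base]; linarith
  · simpa [fn, base] using h
  · simpa [fn, base] using h

variable (lev : ℕ → ℕ) (N : ℕ)

/-- lower set of atoms -/
def Lo (c : K) (k : ℕ) : Atom M lab → Prop
  | .inl x => lab x.1.2 ≤ c ∧ lev x.1.2 + k ≤ N
  | .inr (.inl _) => True
  | .inr (.inr _) => False

/-- upper set of atoms -/
def Up (c : K) (k : ℕ) : Atom M lab → Prop
  | .inl x => c ≤ lab x.1.1 ∧ lev x.1.1 + k ≤ N
  | .inr (.inl _) => False
  | .inr (.inr _) => True

theorem sq_half {i j : ℕ} (h : ((i : ℝ) - j) ^ 2 - 1 / 2 < 0) : i = j := by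
  by_contra hne
  have h1 : (1 : ℤ) ≤ ((i : ℤ) - j) ^ 2 := by
    have : (i : ℤ) - j ≠ 0 := by omega
    have := sq_pos_of_ne_zero this
    omega
  have h2 : (1 : ℝ) ≤ ((i : ℝ) - j) ^ 2 := by exact_mod_cast h1
  linarith

theorem lo_open (c : K) (k : ℕ) (a : Atom M lab) (ha : Lo M lab lev N c k a) :
    ∃ x : {x : Fin 5 → ℝ // ∀ i, fn M lab i x ≠ 0}, fn M lab a x.1 < 0 ∧
      ∀ i, fn M lab i x.1 < 0 → Lo M lab lev N c k i := by
  have key : ∃ y : Fin 5 → ℝ, fn M lab a y < 0 ∧ ∀ i, fn M lab i y < 0 → Lo M lab lev N c k i := by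
    rcases a with ⟨⟨i, j⟩, h⟩ | ⟨⟨i, j⟩, h⟩ | ⟨⟨i, j⟩, h⟩
    · refine ⟨![((j : ℕ) : ℝ) ^ 2 - 1 / 2, 0, 0, -2 * (j : ℕ), 1], ?_, ?_⟩
      · simp [fn]; nlinarith
      · rintro (⟨⟨i', j'⟩, h'⟩ | ⟨⟨i', j'⟩, h'⟩ | ⟨⟨i', j'⟩, h'⟩) hh
        · have : (j' : ℕ) = j := sq_half (by simp [fn] at hh; nlinarith)
          simp only [Lo] at ha ⊢
          rw [this]; exact ha
        · trivial
        · simp [fn] at hh
    · refine ⟨![0, 0, 0, 1, 0], ?_, ?_⟩
      · simpa [fn] using h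
      · rintro (⟨⟨i', j'⟩, h'⟩ | ⟨⟨i', j'⟩, h'⟩ | ⟨⟨i', j'⟩, h'⟩) hh
        · simp [fn] at hh
          exact absurd hh (not_lt.2 (Nat.cast_nonneg _))
        · trivial
        · simp [fn] at hh
    · exact ha.elim
  obtain ⟨y, hy1, hy2⟩ := key
  obtain ⟨x, hx⟩ := perturb (fn M lab) y (base M) (fun i _ => (fn_base M lab i).ne')
  refine ⟨⟨x, fun i => (hx i).1⟩, (hx a).2.2 (Or.inl hy1), fun i hi => hy2 i ?_⟩
  rcases (hx i).2.1 hi with h | ⟨_, h⟩
  · exact h
  · exact absurd h (not_lt.2 (fn_base M lab i).le)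

theorem up_open (c : K) (k : ℕ) (a : Atom M lab) (ha : Up M lab lev N c k a) :
    ∃ x : {x : Fin 5 → ℝ // ∀ i, fn M lab i x ≠ 0}, ¬ fn M lab a x.1 < 0 ∧
      ∀ i, ¬ fn M lab i x.1 < 0 → Up M lab lev N c k i := by
  have key : ∃ y : Fin 5 → ℝ, 0 < fn M lab a y ∧ ∀ i, 0 < fn M lab i y → Up M lab lev N c k i := by
    rcases a with ⟨⟨i, j⟩, h⟩ | ⟨⟨i, j⟩, h⟩ | ⟨⟨i, j⟩, h⟩
    · refine ⟨![1 / 2 - ((i : ℕ) : ℝ) ^ 2, 2 * (i : ℕ), -1, 0, 0], ?_, ?_⟩
      · simp [fn]; nlinarith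
      · rintro (⟨⟨i', j'⟩, h'⟩ | ⟨⟨i', j'⟩, h'⟩ | ⟨⟨i', j'⟩, h'⟩) hh
        · have : (i' : ℕ) = i := sq_half (by simp [fn] at hh; nlinarith)
          simp only [Up] at ha ⊢
          rw [this]; exact ha
        · simp [fn] at hh
        · trivial
    · exact ha.elim
    · refine ⟨![0, -1, 0, 0, 0], ?_, ?_⟩
      · simpa [fn] using h
      · rintro (⟨⟨i', j'⟩, h'⟩ | ⟨⟨i', j'⟩, h'⟩ | ⟨⟨i', j'⟩, h'⟩) hh
        · simp [fn] at hh
          exact absurd hh (not_lt.2 (Nat.cast_nonneg _))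
        · simp [fn] at hh
        · trivial
  obtain ⟨y, hy1, hy2⟩ := key
  have hb : ∀ i, fn M lab i (-base M) < 0 := fun i => by
    rw [map_neg]; exact neg_neg_of_pos (fn_base M lab i)
  obtain ⟨x, hx⟩ := perturb (fn M lab) y (-base M) (fun i _ => (hb i).ne)
  refine ⟨⟨x, fun i => (hx i).1⟩, ?_, fun i hi => hy2 i ?_⟩
  · intro h
    rcases (hx a).2.1 h with h | ⟨h, _⟩
    · exact absurd h (not_lt.2 hy1.le)
    · exact hy1.ne' h
  · by_contra hn
    push Not at hn
    apply hi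
    apply (hx i).2.2
    rcases eq_or_lt_of_le hn with h | h
    · exact Or.inr ⟨h, hb i⟩
    · exact Or.inl h

variable {M lab lev N}
variable {P : Type} [Preorder P] (S : SignSys (fn M lab) P) (v : ℕ → K) (F : List K)

/-- assignment of the variables -/
def asg (lev : ℕ → ℕ) (N : ℕ) (n : ℕ) : DedekindCut P :=
  Concept.ofObjects (· ≤ ·) {p | ∃ x, S.reg x = p ∧ ∀ i, fn M lab i x.1 < 0 → Lo M lab lev N (v n) 0 i}

theorem lo_mono {c c' : K} {k k' : ℕ} (hc : c ≤ c') (hk : k' ≤ k) (a : Atom M lab)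
    (h : Lo M lab lev N c k a) : Lo M lab lev N c' k' a := by
  rcases a with x | x | x
  · exact ⟨h.1.trans hc, by have := h.2; omega⟩
  · trivial
  · exact h

theorem up_mono {c c' : K} {k k' : ℕ} (hc : c' ≤ c) (hk : k' ≤ k) (a : Atom M lab)
    (h : Up M lab lev N c k a) : Up M lab lev N c' k' a := by
  rcases a with x | x | x
  · exact ⟨hc.trans h.1, by have := h.2; omega⟩
  · exact h
  · trivial

theorem lo_up_disj {c : K} {k k' : ℕ} (a : Atom M lab)
    (h : Lo M lab lev N c k a) (h' : Up M lab lev N c k' a) : False := by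
  rcases a with x | x | x
  · exact x.2 (h.1.trans h'.1)
  · exact h'
  · exact h

theorem sandwich (hlev : Monotone lev)
    (hF : ∀ c ∈ F, ∀ l ≤ N, ∃ j < M, lab j = c ∧ lev j = l) (t : LTerm)
    (ht : ∀ c ∈ t.vals v, c ∈ F) :
    (∀ x, (∀ i, fn M lab i x.1 < 0 → Lo M lab lev N (t.eval v) t.depth i) →
      S.reg x ∈ (t.eval (asg S v lev N)).left) ∧
    (∀ x, (∀ i, ¬ fn M lab i x.1 < 0 → Up M lab lev N (t.eval v) t.depth i) →
      S.reg x ∈ (t.eval (asg S v lev N)).right) := by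
  induction t with
  | var n =>
    constructor
    · intro x hx
      exact subset_lowerPolar_upperPolar _ _ ⟨x, rfl, hx⟩
    · intro x hx
      rintro p ⟨y, rfl, hy⟩
      refine (S.le_iff _ _).2 fun i hi => ?_
      by_contra hn
      exact lo_up_disj i (hy i hi) (hx i hn)
  | sup a b iha ihb =>
    have ha : ∀ c ∈ a.vals v, c ∈ F := fun c hc => ht c (by simp [LTerm.vals, hc])
    have hb : ∀ c ∈ b.vals v, c ∈ F := fun c hc => ht c (by simp [LTerm.vals, hc])
    obtain ⟨iha1, iha2⟩ := iha ha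
    obtain ⟨ihb1, ihb2⟩ := ihb hb
    constructor
    · intro x hx
      rw [mem_left_iff]
      intro r hr
      obtain ⟨y, rfl⟩ := S.surj r
      simp only [LTerm.eval, mem_right_sup] at hr
      have hA : ∀ i, Lo M lab lev N (a.eval v) a.depth i → fn M lab i y.1 < 0 := by
        intro i hi
        obtain ⟨z, hz1, hz2⟩ := lo_open M lab lev N _ _ i hi
        exact (S.le_iff _ _).1 ((mem_right_iff _ _).1 hr.1 _ (iha1 z hz2)) i hz1
      have hB : ∀ i, Lo M lab lev N (b.eval v) b.depth i → fn M lab i y.1 < 0 := by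
        intro i hi
        obtain ⟨z, hz1, hz2⟩ := lo_open M lab lev N _ _ i hi
        exact (S.le_iff _ _).1 ((mem_right_iff _ _).1 hr.2 _ (ihb1 z hz2)) i hz1
      refine (S.le_iff _ _).2 fun i hi => ?_
      have hi' := hx i hi
      rcases i with ⟨⟨i, j⟩, h⟩ | q | q
      · simp only [Lo, LTerm.eval, LTerm.depth] at hi' h
        have step : ∀ (s : LTerm), s.eval v ∈ F → s.depth ≤ max a.depth b.depth →
            ¬ s.eval v ≤ lab i →
            (∀ i, Lo M lab lev N (s.eval v) s.depth i → fn M lab i y.1 < 0) →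
            fn M lab (.inl ⟨(i, j), h⟩) y.1 < 0 := by
          intro s hs hd hn hS
          obtain ⟨j', hj', hl1, hl2⟩ := hF _ hs (lev j + 1) (by omega)
          have hlt : (j : ℕ) < j' := by
            by_contra hc
            have := hlev (not_lt.1 hc)
            omega
          have h1 := hS (.inl ⟨(i, ⟨j', hj'⟩), by simpa [hl1] using hn⟩)
            ⟨by simp [hl1], by simp only [hl2]; omega⟩
          have h2 := hS (.inr (.inl ⟨(j, ⟨j', hj'⟩), hlt⟩)) trivial
          simp only [fn, lin_apply] at h1 h2 ⊢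
          linarith
        by_cases h1 : a.eval v ≤ lab i
        · by_cases h2 : b.eval v ≤ lab i
          · exact absurd (hi'.1.trans (sup_le h1 h2)) h
          · exact step b (hb _ (b.eval_mem_vals v)) (le_max_right _ _) h2 hB
        · exact step a (ha _ (a.eval_mem_vals v)) (le_max_left _ _) h1 hA
      · exact hA _ trivial
      · exact hi'.elim
    · intro x hx
      simp only [LTerm.eval, mem_right_sup]
      exact ⟨iha2 x fun i hi => up_mono le_sup_left (by simp only [LTerm.depth]; omega) i (hx i hi),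
        ihb2 x fun i hi => up_mono le_sup_right (by simp only [LTerm.depth]; omega) i (hx i hi)⟩
  | inf a b iha ihb =>
    have ha : ∀ c ∈ a.vals v, c ∈ F := fun c hc => ht c (by simp [LTerm.vals, hc])
    have hb : ∀ c ∈ b.vals v, c ∈ F := fun c hc => ht c (by simp [LTerm.vals, hc])
    obtain ⟨iha1, iha2⟩ := iha ha
    obtain ⟨ihb1, ihb2⟩ := ihb hb
    constructor
    · intro x hx
      simp only [LTerm.eval, mem_left_inf]
      exact ⟨iha1 x fun i hi => lo_mono inf_le_left (by simp only [LTerm.depth]; omega) i (hx i hi),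
        ihb1 x fun i hi => lo_mono inf_le_right (by simp only [LTerm.depth]; omega) i (hx i hi)⟩
    · intro x hx
      rw [mem_right_iff]
      intro r hr
      obtain ⟨y, rfl⟩ := S.surj r
      simp only [LTerm.eval, mem_left_inf] at hr
      have hA : ∀ i, Up M lab lev N (a.eval v) a.depth i → ¬ fn M lab i y.1 < 0 := by
        intro i hi hy
        obtain ⟨z, hz1, hz2⟩ := up_open M lab lev N _ _ i hi
        exact hz1 ((S.le_iff _ _).1 ((mem_left_iff _ _).1 hr.1 _ (iha2 z hz2)) i hy)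
      have hB : ∀ i, Up M lab lev N (b.eval v) b.depth i → ¬ fn M lab i y.1 < 0 := by
        intro i hi hy
        obtain ⟨z, hz1, hz2⟩ := up_open M lab lev N _ _ i hi
        exact hz1 ((S.le_iff _ _).1 ((mem_left_iff _ _).1 hr.2 _ (ihb2 z hz2)) i hy)
      refine (S.le_iff _ _).2 fun i hi => ?_
      by_contra hn
      have hi' := hx i hn
      revert hi
      rcases i with ⟨⟨i, j⟩, h⟩ | q | q
      · simp only [Up, LTerm.eval, LTerm.depth] at hi' h
        have step : ∀ (s : LTerm), s.eval v ∈ F → s.depth ≤ max a.depth b.depth →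
            ¬ lab j ≤ s.eval v →
            (∀ i, Up M lab lev N (s.eval v) s.depth i → ¬ fn M lab i y.1 < 0) →
            ¬ fn M lab (.inl ⟨(i, j), h⟩) y.1 < 0 := by
          intro s hs hd hn hS
          obtain ⟨i', hi'', hl1, hl2⟩ := hF _ hs (lev i + 1) (by omega)
          have hlt : (i : ℕ) < i' := by
            by_contra hc
            have := hlev (not_lt.1 hc)
            omega
          have h1 := hS (.inl ⟨(⟨i', hi''⟩, j), by simpa [hl1] using hn⟩)
            ⟨by simp [hl1], by simp only [hl2]; omega⟩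
          have h2 := hS (.inr (.inr ⟨(i, ⟨i', hi''⟩), hlt⟩)) trivial
          simp only [fn, lin_apply] at h1 h2 ⊢
          linarith
        by_cases h1 : lab j ≤ a.eval v
        · by_cases h2 : lab j ≤ b.eval v
          · exact absurd ((le_inf h1 h2).trans hi'.1) h
          · exact step b (hb _ (b.eval_mem_vals v)) (le_max_right _ _) h2 hB
        · exact step a (ha _ (a.eval_mem_vals v)) (le_max_left _ _) h1 hA
      · exact hi'.elim
      · exact hA _ trivial

end Dim5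

theorem not_le_dim5 {K : Type u} [Lattice K] (v : ℕ → K) (s t : LTerm)
    (h : ¬ s.eval v ≤ t.eval v) {d : ℕ} (hd : 5 ≤ d) :
    ∃ (A : Arrangement d) (B : Region A) (w : ℕ → DM B), ¬ s.eval w ≤ t.eval w := by
  classical
  let F : List K := s.vals v ++ t.vals v
  let n := F.length
  have hn : 0 < n := by
    have : s.eval v ∈ F := by simp [F, s.eval_mem_vals v]
    exact List.length_pos_of_mem this
  let N := max s.depth t.depth
  let M := (N + 1) * n
  let lab : ℕ → K := fun j => F.getD (j % n) (v 0)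
  let lev : ℕ → ℕ := fun j => j / n
  have hlev : Monotone lev := fun a b hab => Nat.div_le_div_right hab
  have hF : ∀ c ∈ F, ∀ l ≤ N, ∃ j < M, lab j = c ∧ lev j = l := by
    intro c hc l hl
    obtain ⟨k, hk, rfl⟩ := List.getElem_of_mem hc
    refine ⟨k + n * l, ?_, ?_, ?_⟩
    · have : n * l ≤ n * N := Nat.mul_le_mul_left _ hl
      have hk' : k < n := hk
      simp only [M]; nlinarith
    · simp only [lab]
      rw [Nat.add_mul_mod_self_left, Nat.mod_eq_of_lt hk]
      simp [hk]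
    · simp only [lev]
      rw [Nat.add_mul_div_left _ _ hn, Nat.div_eq_of_lt hk, zero_add]
  obtain ⟨A, B, ⟨S⟩⟩ := exists_arr (κ := Fin 5) (d := d) (by simpa using hd) (Dim5.fn M lab)
    (Dim5.base M) (Dim5.fn_base M lab)
  refine ⟨A, B, Dim5.asg S v lev N, fun hle => ?_⟩
  obtain ⟨j, hj, hj1, hj2⟩ := hF (s.eval v) (by simp [F, s.eval_mem_vals v]) 0 (Nat.zero_le _)
  obtain ⟨i, hi, hi1, hi2⟩ := hF (t.eval v) (by simp [F, t.eval_mem_vals v]) 0 (Nat.zero_le _)
  let a : Dim5.Atom M lab := .inl ⟨(⟨i, hi⟩, ⟨j, hj⟩), by simpa [hi1, hj1] using h⟩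
  obtain ⟨x, hx1, hx2⟩ := Dim5.lo_open M lab lev N (s.eval v) s.depth a
    ⟨by simp [hj1], by simp only [hj2]; omega⟩
  obtain ⟨y, hy1, hy2⟩ := Dim5.up_open M lab lev N (t.eval v) t.depth a
    ⟨by simp [hi1], by simp only [hi2]; omega⟩
  have h1 := (Dim5.sandwich S v F hlev hF s (fun c hc => by simp [F, hc])).1 x hx2
  have h2 := (Dim5.sandwich S v F hlev hF t (fun c hc => by simp [F, hc])).2 y hy2
  have h3 := (cut_le_iff _ _).1 hle _ h1
  exact hy1 ((S.le_iff _ _).1 ((mem_left_iff _ _).1 h3 _ h2) a hx1)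

theorem identity_trivial {d : ℕ} (hd : 5 ≤ d) (p q : LTerm)
    (h : ∀ (A : Arrangement d) (B : Region A), HoldsIdentity (DM B) p q)
    (K : Type u) [Lattice K] : HoldsIdentity K p q := by
  intro v
  apply le_antisymm
  · by_contra hn
    obtain ⟨A, B, w, hw⟩ := not_le_dim5 v p q hn hd
    exact hw (h A B w).le
  · by_contra hn
    obtain ⟨A, B, w, hw⟩ := not_le_dim5 v q p hn hd
    exact hw (h A B w).ge

end Pool.Agent.H400Z.Reg
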