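import Mathlib
import Pool.Agent.H400Z.Reg.Dim5

set_option autoImplicit false

namespace Pool.Agent.H400Z.Reg

open Set

universe u

namespace Embed

variable {K : Type u} [Lattice K] {n : ℕ} (lab : Fin n → K)

open Classical in
/-- the functionals: coordinates `e_j`, `e_m`, and the auxiliary `q_j`, `r_m` -/
noncomputable def fn : (Fin n ⊕ Fin n) ⊕ (Fin n ⊕ Fin n) → ((Fin n ⊕ Fin n) → ℝ) →ₗ[ℝ] ℝ
  | .inl k => LinearMap.proj k
  | .inr (.inl j) => ((n : ℝ) + 1) • LinearMap.proj (.inl j) -
      ∑ m ∈ Finset.univ.filter (fun m => ¬ lab j ≤ lab m), LinearMap.proj (.inr m)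
  | .inr (.inr m) => ((n : ℝ) + 1) • LinearMap.proj (.inr m) -
      ∑ j ∈ Finset.univ.filter (fun j => ¬ lab j ≤ lab m), LinearMap.proj (.inl j)

open Classical in
theorem fn_q (j : Fin n) (x : (Fin n ⊕ Fin n) → ℝ) : fn lab (.inr (.inl j)) x =
    ((n : ℝ) + 1) * x (.inl j) -
      ∑ m ∈ Finset.univ.filter (fun m => ¬ lab j ≤ lab m), x (.inr m) := by
  simp [fn]

open Classical in
theorem fn_r (m : Fin n) (x : (Fin n ⊕ Fin n) → ℝ) : fn lab (.inr (.inr m)) x =
    ((n : ℝ) + 1) * x (.inr m) -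
      ∑ j ∈ Finset.univ.filter (fun j => ¬ lab j ≤ lab m), x (.inl j) := by
  simp [fn]

theorem fn_e (k : Fin n ⊕ Fin n) (x : (Fin n ⊕ Fin n) → ℝ) : fn lab (.inl k) x = x k := by
  simp [fn]

theorem fn_base (i) : 0 < fn lab i (fun _ => 1) := by
  classical
  rcases i with k | j | m
  · simp [fn_e]
  · rw [fn_q]
    have := Finset.card_filter_le (Finset.univ : Finset (Fin n)) (fun m => ¬ lab j ≤ lab m)
    simp only [Finset.card_univ, Fintype.card_fin] at this
    have h2 : ((Finset.univ.filter (fun m => ¬ lab j ≤ lab m)).card : ℝ) ≤ n := by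
      exact_mod_cast this
    simp only [Finset.sum_const, nsmul_eq_mul, mul_one]
    convert (by linarith : (0 : ℝ) < (n + 1) - ((Finset.univ.filter (fun m => ¬ lab j ≤ lab m)).card : ℝ))
  · rw [fn_r]
    have := Finset.card_filter_le (Finset.univ : Finset (Fin n)) (fun j => ¬ lab j ≤ lab m)
    simp only [Finset.card_univ, Fintype.card_fin] at this
    have h2 : ((Finset.univ.filter (fun j => ¬ lab j ≤ lab m)).card : ℝ) ≤ n := by
      exact_mod_cast this
    simp only [Finset.sum_const, nsmul_eq_mul, mul_one]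
    convert (by linarith : (0 : ℝ) < (n + 1) - ((Finset.univ.filter (fun j => ¬ lab j ≤ lab m)).card : ℝ))

/-- the sign pattern attached to `a` -/
def Pat (a : K) : (Fin n ⊕ Fin n) ⊕ (Fin n ⊕ Fin n) → Prop
  | .inl (.inl j) => lab j ≤ a
  | .inl (.inr m) => ¬ a ≤ lab m
  | .inr (.inl _) => True
  | .inr (.inr _) => False

theorem exists_point (k : Fin n) : ∃ x : {x // ∀ i, fn lab i x ≠ 0},
    ∀ i, fn lab i x.1 < 0 ↔ Pat lab (lab k) i := by
  classical
  let y : (Fin n ⊕ Fin n) → ℝ := fun i => match i with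
    | .inl j => if lab j ≤ lab k then -1 else 0
    | .inr m => if lab k ≤ lab m then 1 else 0
  let z : (Fin n ⊕ Fin n) → ℝ := fun i => match i with
    | .inl _ => 1
    | .inr _ => -1
  have hn : (0 : ℝ) ≤ n := Nat.cast_nonneg _
  have hq : ∀ j, fn lab (.inr (.inl j)) y < 0 := by
    intro j
    rw [fn_q]
    have hnn : ∀ m ∈ Finset.univ.filter (fun m => ¬ lab j ≤ lab m), 0 ≤ y (.inr m) := by
      intro m _; simp only [y]; split_ifs <;> norm_num
    by_cases h : lab j ≤ lab k
    · have := Finset.sum_nonneg hnn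
      have h1 : y (.inl j) = -1 := by simp [y, h]
      rw [h1]; linarith
    · have h1 : y (.inl j) = 0 := by simp [y, h]
      have h2 := Finset.single_le_sum hnn (a := k) (by simpa using h)
      have h3 : y (.inr k) = 1 := by simp [y]
      rw [h1]; linarith
  have hr : ∀ m, 0 < fn lab (.inr (.inr m)) y := by
    intro m
    rw [fn_r]
    have hnn : ∀ j ∈ Finset.univ.filter (fun j => ¬ lab j ≤ lab m), 0 ≤ - y (.inl j) := by
      intro m _; simp only [y]; split_ifs <;> norm_num
    by_cases h : lab k ≤ lab m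
    · have := Finset.sum_nonneg hnn
      rw [Finset.sum_neg_distrib] at this
      have h1 : y (.inr m) = 1 := by simp [y, h]
      rw [h1]; linarith
    · have h1 : y (.inr m) = 0 := by simp [y, h]
      have h2 := Finset.single_le_sum hnn (a := k) (by simpa using h)
      rw [Finset.sum_neg_distrib] at h2
      have h3 : y (.inl k) = -1 := by simp [y]
      rw [h1]; linarith
  obtain ⟨x, hx⟩ := perturb (fn lab) y z (by
    rintro ((j | m) | j | m) h
    · simp [fn_e, z]
    · simp [fn_e, z]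
    · exact absurd h (hq j).ne
    · exact absurd h (hr m).ne')
  refine ⟨⟨x, fun i => (hx i).1⟩, fun i => (hx i).2.trans ?_⟩
  rcases i with (j | m) | j | m
  · simp only [fn_e, y, z, Pat]; split_ifs with h <;> simp [h]
  · simp only [fn_e, y, z, Pat]; split_ifs with h <;> simp [h]
  · simp [Pat, hq j]
  · simp [Pat, (hr m).le, (hr m).ne']

theorem exists_emb {P : Type} [Preorder P] (S : SignSys (fn lab) P) : ∃ φ : Fin n → P,
    (∀ k l, φ k ≤ φ l ↔ lab k ≤ lab l) ∧
    (∀ k l m, lab m = lab k ⊔ lab l → ∀ r, φ k ≤ r → φ l ≤ r → φ m ≤ r) ∧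
    (∀ k l m, lab m = lab k ⊓ lab l → ∀ r, r ≤ φ k → r ≤ φ l → r ≤ φ m) := by
  classical
  choose x hx using exists_point lab
  have hn : (0 : ℝ) < n + 1 := by positivity
  refine ⟨fun k => S.reg (x k), fun k l => ?_, fun k l m hm r h1 h2 => ?_,
    fun k l m hm r h1 h2 => ?_⟩
  · rw [S.le_iff]
    simp only [hx]
    constructor
    · intro h; exact h (.inl (.inl k)) le_rfl
    · rintro h ((j | m) | j | m) hi
      · exact le_trans hi h
      · exact fun h' => hi (h.trans h')
      · trivial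
      · exact hi
  · obtain ⟨y, rfl⟩ := S.surj r
    rw [S.le_iff] at h1 h2 ⊢
    simp only [hx] at h1 h2 ⊢
    have hM : ∀ m', ¬ lab m ≤ lab m' → y.1 (.inr m') < 0 := by
      intro m' h
      rw [hm, sup_le_iff, not_and_or] at h
      rw [← fn_e lab (.inr m') y.1]
      rcases h with h | h
      · exact h1 _ h
      · exact h2 _ h
    rintro ((j | m') | j | m') hi
    · have h3 := h1 (.inr (.inl j)) trivial
      rw [fn_q] at h3
      have h4 : ∑ m ∈ Finset.univ.filter (fun m => ¬ lab j ≤ lab m), y.1 (.inr m) ≤ 0 := by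
        apply Finset.sum_nonpos
        intro m' hm'
        exact (hM m' fun h => (Finset.mem_filter.1 hm').2 (le_trans hi h)).le
      rw [fn_e]
      by_contra hc
      have := mul_nonneg hn.le (not_lt.1 hc)
      linarith
    · rw [fn_e]; exact hM m' hi
    · exact h1 _ trivial
    · exact hi.elim
  · obtain ⟨y, rfl⟩ := S.surj r
    rw [S.le_iff] at h1 h2 ⊢
    simp only [hx] at h1 h2 ⊢
    have hJ : ∀ j, y.1 (.inl j) < 0 → lab j ≤ lab m := by
      intro j h
      rw [← fn_e lab (.inl j) y.1] at h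
      rw [hm]
      exact le_inf (h1 _ h) (h2 _ h)
    rintro ((j | m') | j | m') hi
    · rw [fn_e] at hi; exact hJ j hi
    · intro hle
      have h3 : ¬ fn lab (.inr (.inr m')) y.1 < 0 := fun h => h1 _ h
      rw [fn_r] at h3
      have h4 : 0 ≤ ∑ j ∈ Finset.univ.filter (fun j => ¬ lab j ≤ lab m'), y.1 (.inl j) := by
        apply Finset.sum_nonneg
        intro j hj
        by_contra hc
        exact (Finset.mem_filter.1 hj).2 ((hJ j (not_le.1 hc)).trans hle)
      rw [fn_e] at hi
      have := mul_neg_of_pos_of_neg hn hi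
      apply h3
      linarith
    · trivial
    · exact h1 _ hi

end Embed

theorem quasi_trivial (prem : List (LTerm × LTerm)) (p q : LTerm)
    (h : ∀ d : ℕ, 1 ≤ d → ∀ (A : Arrangement d) (B : Region A), HoldsQuasi (DM B) prem p q)
    (K : Type u) [Lattice K] : HoldsQuasi K prem p q := by
  classical
  intro v hv
  let F : List K := p.vals v ++ q.vals v ++ prem.flatMap (fun e => e.1.vals v ++ e.2.vals v)
  let lab : Fin F.length → K := fun k => F.get k
  have hF : ∀ c ∈ F, ∃ k, lab k = c := fun c hc => by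
    obtain ⟨k, hk⟩ := List.get_of_mem hc
    exact ⟨k, hk⟩
  obtain ⟨A, B, ⟨S⟩⟩ := exists_arr (κ := Fin F.length ⊕ Fin F.length)
    (d := F.length + F.length + 1) (by simp) (Embed.fn lab) (fun _ => 1) (Embed.fn_base lab)
  obtain ⟨φ, h1, h2, h3⟩ := Embed.exists_emb lab S
  let w : ℕ → DM B := fun n =>
    if hn : ∃ k, lab k = v n then DedekindCut.principal (φ hn.choose) else ⊥
  have heq : ∀ k l, lab k = lab l → DedekindCut.principal (φ k) = DedekindCut.principal (φ l) :=
    fun k l hkl => by rw [le_antisymm ((h1 k l).2 hkl.le) ((h1 l k).2 hkl.ge)]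
  have key : ∀ t : LTerm, (∀ c ∈ t.vals v, c ∈ F) → ∀ k, lab k = t.eval v →
      t.eval w = DedekindCut.principal (φ k) := by
    intro t
    induction t with
    | var n =>
      intro _ k hk
      have hn : ∃ k, lab k = v n := ⟨k, hk⟩
      simp only [LTerm.eval, w, dif_pos hn]
      exact heq _ _ (hn.choose_spec.trans hk.symm)
    | sup a b iha ihb =>
      intro ht m hm
      have ha : ∀ c ∈ a.vals v, c ∈ F := fun c hc => ht c (by simp [LTerm.vals, hc])
      have hb : ∀ c ∈ b.vals v, c ∈ F := fun c hc => ht c (by simp [LTerm.vals, hc])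
      obtain ⟨k, hk⟩ := hF _ (ha _ (a.eval_mem_vals v))
      obtain ⟨l, hl⟩ := hF _ (hb _ (b.eval_mem_vals v))
      have hm' : lab m = lab k ⊔ lab l := by rw [hk, hl]; exact hm
      simp only [LTerm.eval, iha ha k hk, ihb hb l hl]
      apply DedekindCut.ext'
      ext r
      rw [mem_right_sup]
      simp only [DedekindCut.right_principal, mem_Ici]
      constructor
      · rintro ⟨hr1, hr2⟩; exact h2 k l m hm' r hr1 hr2
      · intro hr
        exact ⟨((h1 k m).2 (hm' ▸ le_sup_left)).trans hr, ((h1 l m).2 (hm' ▸ le_sup_right)).trans hr⟩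
    | inf a b iha ihb =>
      intro ht m hm
      have ha : ∀ c ∈ a.vals v, c ∈ F := fun c hc => ht c (by simp [LTerm.vals, hc])
      have hb : ∀ c ∈ b.vals v, c ∈ F := fun c hc => ht c (by simp [LTerm.vals, hc])
      obtain ⟨k, hk⟩ := hF _ (ha _ (a.eval_mem_vals v))
      obtain ⟨l, hl⟩ := hF _ (hb _ (b.eval_mem_vals v))
      have hm' : lab m = lab k ⊓ lab l := by rw [hk, hl]; exact hm
      simp only [LTerm.eval, iha ha k hk, ihb hb l hl]
      apply DedekindCut.ext
      ext r
      rw [mem_left_inf]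
      simp only [DedekindCut.left_principal, mem_Iic]
      constructor
      · rintro ⟨hr1, hr2⟩; exact h3 k l m hm' r hr1 hr2
      · intro hr
        exact ⟨hr.trans ((h1 m k).2 (hm' ▸ inf_le_left)), hr.trans ((h1 m l).2 (hm' ▸ inf_le_right))⟩
  have hp : ∀ c ∈ p.vals v, c ∈ F := fun c hc => by simp [F, hc]
  have hq : ∀ c ∈ q.vals v, c ∈ F := fun c hc => by simp [F, hc]
  obtain ⟨k, hk⟩ := hF _ (hp _ (p.eval_mem_vals v))
  obtain ⟨l, hl⟩ := hF _ (hq _ (q.eval_mem_vals v))
  have hw := h _ (by omega) A B w (by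
    intro e he
    have h1' : ∀ c ∈ e.1.vals v, c ∈ F := fun c hc => by
      simp only [F, List.mem_append, List.mem_flatMap]
      exact Or.inr ⟨e, he, Or.inl hc⟩
    have h2' : ∀ c ∈ e.2.vals v, c ∈ F := fun c hc => by
      simp only [F, List.mem_append, List.mem_flatMap]
      exact Or.inr ⟨e, he, Or.inr hc⟩
    obtain ⟨k', hk'⟩ := hF _ (h1' _ (e.1.eval_mem_vals v))
    rw [key _ h1' k' hk', key _ h2' k' (hk'.trans (hv e he))])
  rw [key p hp k hk, key q hq l hl, DedekindCut.principal_inj] at hw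
  rw [← hk, ← hl]
  exact le_antisymm ((h1 k l).1 hw.le) ((h1 l k).1 hw.ge)

end Pool.Agent.H400Z.Reg
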