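import Mathlib
import Pool.Agent.H400Z.Reg.Embed

set_option autoImplicit false

namespace Pool.Agent.H400Z.Reg

open Set

universe u

theorem lower_cover {V ι : Type} [AddCommGroup V] [Module ℝ V] [Fintype ι] (f : ι → V →ₗ[ℝ] ℝ)
    (b : V) (hb : ∀ i, f i b = 1) (hinj : Function.Injective f) (x : V) (hx : ∀ i, f i x ≠ 0)
    (i0 : ι) (h0 : f i0 x < 0) :
    ∃ (e : ι) (x' : V), f e x < 0 ∧ (∀ i, f i x' ≠ 0) ∧ ∀ i, f i x' < 0 ↔ f i x < 0 ∧ i ≠ e := by
  classical
  let g : {p : ι × ι // p.1 ≠ p.2} → V →ₗ[ℝ] ℝ := fun p => f p.1.1 - f p.1.2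
  have hg : ∀ p, ∃ z, g p z ≠ 0 := by
    intro p
    by_contra hn
    push Not at hn
    apply p.2
    apply hinj
    ext z
    have := hn z
    simp only [g, LinearMap.sub_apply] at this
    linarith
  obtain ⟨z, hz⟩ := Module.Dual.exists_forall_ne_zero_of_forall_exists g hg
  obtain ⟨x1, hx1⟩ := perturb (Sum.elim f g) x z (by
    rintro (i | p) h
    · exact absurd h (hx i)
    · exact hz p)
  have h1 : ∀ i, f i x1 ≠ 0 := fun i => (hx1 (.inl i)).1
  have h2 : ∀ i, f i x1 < 0 ↔ f i x < 0 := fun i => by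
    have := (hx1 (.inl i)).2
    simpa [hx i] using this
  have h3 : ∀ i j, i ≠ j → f i x1 ≠ f j x1 := fun i j hij h => by
    have := (hx1 (.inr ⟨(i, j), hij⟩)).1
    apply this
    simp [g, h]
  obtain ⟨e, he, hmax⟩ := Finset.exists_max_image (Finset.univ.filter (fun i => f i x1 < 0))
    (fun i => f i x1) ⟨i0, by simpa using (h2 i0).2 h0⟩
  have he' : f e x1 < 0 := by simpa using he
  obtain ⟨x', hx'⟩ := perturb f (x1 + (- f e x1) • b) b (fun i _ => by rw [hb]; exact one_ne_zero)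
  refine ⟨e, x', (h2 e).1 he', fun i => (hx' i).1, fun i => (hx' i).2.trans ?_⟩
  simp only [map_add, map_smul, smul_eq_mul, hb, mul_one]
  constructor
  · rintro (h | ⟨_, h⟩)
    · refine ⟨(h2 i).1 (by linarith), ?_⟩
      rintro rfl
      linarith
    · linarith
  · rintro ⟨h, hne⟩
    left
    have h4 := hmax i (by simpa using (h2 i).2 h)
    have h5 := h3 i e hne
    have := lt_of_le_of_ne h4 h5
    linarith

/-- join of `var 1` and the variables `var (i + 2)` for `i` in a list -/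
def supT : List ℕ → LTerm
  | [] => .var 1
  | i :: l => .sup (.var (i + 2)) (supT l)

theorem supT_le_iff {L : Type u} [Lattice L] (v : ℕ → L) (l : List ℕ) (a : L) :
    (supT l).eval v ≤ a ↔ v 1 ≤ a ∧ ∀ i ∈ l, v (i + 2) ≤ a := by
  induction l with
  | nil => simp [supT, LTerm.eval]
  | cons i l ih => simp only [supT, LTerm.eval, sup_le_iff, ih, List.forall_mem_cons]; tauto

/-- premises of the Helly quasi-identity -/
def hellyPrem (n : ℕ) : List (LTerm × LTerm) :=
  (List.range n).map fun j =>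
    (.inf (.var 0) (supT ((List.range n).filter (fun i => i ≠ j))), .var 1)

/-- left side of the conclusion -/
def hellyConc (n : ℕ) : LTerm := .inf (.var 0) (supT (List.range n))

theorem helly_fails (n : ℕ) (hn : 0 < n) :
    ¬ HoldsQuasi (Submodule ℚ (ℕ → ℚ)) (hellyPrem n) (hellyConc n) (.var 1) := by
  classical
  intro h
  let o : ℕ → ℚ := ∑ i ∈ Finset.range n, Pi.single i 1
  have ho : ∀ j < n, o j = 1 := by
    intro j hj
    simp [o, Finset.sum_apply, Pi.single_apply, hj]
  let v : ℕ → Submodule ℚ (ℕ → ℚ) := fun k => match k with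
    | 0 => Submodule.span ℚ {o}
    | 1 => ⊥
    | i + 2 => Submodule.span ℚ {Pi.single i 1}
  have h1 := h v (by
    intro e he
    obtain ⟨j, hj, rfl⟩ := List.mem_map.1 he
    have hj' : j < n := List.mem_range.1 hj
    have hle : (supT ((List.range n).filter (fun i => i ≠ j))).eval v ≤
        LinearMap.ker (LinearMap.proj j : (ℕ → ℚ) →ₗ[ℚ] ℚ) := by
      rw [supT_le_iff]
      refine ⟨bot_le, fun i hi => ?_⟩
      have hij : i ≠ j := by simpa using (List.mem_filter.1 hi).2
      simp only [v]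
      rw [Submodule.span_singleton_le_iff_mem]
      simp [Pi.single_apply, hij.symm]
    simp only [LTerm.eval]
    apply le_antisymm _ bot_le
    rintro x ⟨hx1, hx2⟩
    obtain ⟨c, rfl⟩ := Submodule.mem_span_singleton.1 hx1
    have := hle hx2
    simp [ho j hj'] at this
    simp [v, this])
  have h2 : o ∈ (hellyConc n).eval v := by
    refine ⟨Submodule.mem_span_singleton_self o, ?_⟩
    have := (supT_le_iff v (List.range n) _).1 le_rfl
    apply Submodule.sum_mem
    intro i hi
    exact this.2 i (List.mem_range.2 (Finset.mem_range.1 hi)) (Submodule.mem_span_singleton_self _)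
  rw [h1] at h2
  have h3 : o = 0 := by simpa [LTerm.eval, v] using h2
  have := ho 0 hn
  rw [h3] at this
  simp at this

theorem helly_holds {d : ℕ} {A : Arrangement d} (B : Region A) :
    HoldsQuasi (DM B) (hellyPrem (d + 2)) (hellyConc (d + 2)) (.var 1) := by
  classical
  intro v hv
  obtain ⟨f, b, hb, hinj, ⟨S⟩⟩ := exists_signSys B
  have hprem : ∀ j < d + 2,
      v 0 ⊓ (supT ((List.range (d + 2)).filter (fun i => i ≠ j))).eval v = v 1 := fun j hj =>
    hv _ (List.mem_map.2 ⟨j, List.mem_range.2 hj, rfl⟩)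
  have hright : ∀ (l : List ℕ) (r : Pos B), r ∈ ((supT l).eval v).right ↔
      r ∈ (v 1).right ∧ ∀ i ∈ l, r ∈ (v (i + 2)).right := by
    intro l r
    simp only [← DedekindCut.le_principal_iff, supT_le_iff]
  simp only [hellyConc, LTerm.eval]
  apply le_antisymm
  swap
  · apply le_inf
    · rw [← hprem 0 (by omega)]; exact inf_le_left
    · exact ((supT_le_iff v _ _).1 le_rfl).1
  rw [cut_le_iff]
  suffices H : ∀ k : ℕ, ∀ x : {x // ∀ i, f i x ≠ 0},
      (Finset.univ.filter (fun i => f i x.1 < 0)).card = k →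
      S.reg x ∈ (v 0 ⊓ (supT (List.range (d + 2))).eval v).left → S.reg x ∈ (v 1).left by
    intro p hp
    obtain ⟨x, rfl⟩ := S.surj p
    exact H _ x rfl hp
  intro k
  induction k using Nat.strong_induction_on with
  | _ k ih =>
  intro x hk hx
  by_contra hn
  have hex : ∃ i0, f i0 x.1 < 0 := by
    by_contra hno
    push Not at hno
    apply hn
    rw [mem_left_iff]
    intro r _
    obtain ⟨y, rfl⟩ := S.surj r
    exact (S.le_iff _ _).2 fun i hi => absurd hi (not_lt.2 (hno i))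
  obtain ⟨i0, hi0⟩ := hex
  obtain ⟨e, x', he, hx'1, hx'2⟩ := lower_cover f b hb hinj x.1 x.2 i0 hi0
  have hle : S.reg ⟨x', hx'1⟩ ≤ S.reg x := (S.le_iff _ _).2 fun i hi => ((hx'2 i).1 hi).1
  have hx'3 : S.reg ⟨x', hx'1⟩ ∈ (v 1).left := by
    refine ih _ ?_ ⟨x', hx'1⟩ rfl ?_
    · rw [← hk]
      apply Finset.card_lt_card
      constructor
      · intro i hi
        simp only [Finset.mem_filter, Finset.mem_univ, true_and] at hi ⊢
        exact ((hx'2 i).1 hi).1
      · intro hsub
        have := hsub (Finset.mem_filter.2 ⟨Finset.mem_univ e, he⟩)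
        exact ((hx'2 e).1 (Finset.mem_filter.1 this).2).2 rfl
    · rw [mem_left_iff] at hx ⊢
      exact fun r hr => hle.trans (hx r hr)
  rw [mem_left_inf] at hx
  have hr : ∀ j < d + 2, ∃ y : {x // ∀ i, f i x ≠ 0}, 0 < f e y.1 ∧ S.reg y ∈ (v 1).right ∧
      ∀ i < d + 2, i ≠ j → S.reg y ∈ (v (i + 2)).right := by
    intro j hj
    have h1 : S.reg x ∉ ((supT ((List.range (d + 2)).filter (fun i => i ≠ j))).eval v).left := by
      intro h
      apply hn
      rw [← hprem j hj, mem_left_inf]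
      exact ⟨hx.1, h⟩
    rw [mem_left_iff] at h1
    push Not at h1
    obtain ⟨r, hr1, hr2⟩ := h1
    obtain ⟨y, rfl⟩ := S.surj r
    rw [hright] at hr1
    refine ⟨y, ?_, hr1.1, fun i hi hij => hr1.2 i ?_⟩
    · by_contra hc
      have hneg : f e y.1 < 0 := lt_of_le_of_ne (not_lt.1 hc) (y.2 e)
      apply hr2
      refine (S.le_iff _ _).2 fun i hi => ?_
      by_cases hie : i = e
      · rw [hie]; exact hneg
      · exact (S.le_iff _ _).1 ((mem_left_iff _ _).1 hx'3 _ hr1.1) i ((hx'2 i).2 ⟨hi, hie⟩)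
    · simp [hi, hij]
  let Y : DM B → Set A.hyps := fun X => {i | ∃ y, S.reg y ∈ X.left ∧ f i y.1 < 0}
  have hY : ∀ (X : DM B) (y : {x // ∀ i, f i x ≠ 0}), S.reg y ∈ X.right ↔
      ∀ i ∈ Y X, f i y.1 < 0 := by
    intro X y
    rw [mem_right_iff]
    constructor
    · rintro h i ⟨z, hz1, hz2⟩
      exact (S.le_iff _ _).1 (h _ hz1) i hz2
    · intro h p hp
      obtain ⟨z, rfl⟩ := S.surj p
      exact (S.le_iff _ _).2 fun i hi => h i ⟨z, hp, hi⟩
  let C : ℕ → Set (Fin d → ℝ) := fun j =>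
    {z | 0 < f e z} ∩ ((⋂ i ∈ Y (v 1), {z | f i z < 0}) ∩ ⋂ i ∈ Y (v (j + 2)), {z | f i z < 0})
  have hC : ∀ j, Convex ℝ (C j) := by
    intro j
    refine (convex_halfSpace_gt (f e).isLinear 0).inter (Convex.inter ?_ ?_)
    · exact convex_iInter₂ fun i _ => convex_halfSpace_lt (f i).isLinear 0
    · exact convex_iInter₂ fun i _ => convex_halfSpace_lt (f i).isLinear 0
  obtain ⟨z, hz⟩ := Convex.helly_theorem' (𝕜 := ℝ) (F := C) (s := Finset.range (d + 2))
    (fun j _ => hC j) (by
      intro I hI hcard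
      have hcard' : I.card < (Finset.range (d + 2)).card := by
        simp only [Module.finrank_fintype_fun_eq_card, Fintype.card_fin] at hcard
        simp only [Finset.card_range]; omega
      obtain ⟨j, hj1, hj2⟩ := Finset.exists_mem_notMem_of_card_lt_card hcard'
      obtain ⟨y, hy1, hy2, hy3⟩ := hr j (Finset.mem_range.1 hj1)
      refine ⟨y.1, mem_iInter₂.2 fun i hi => ⟨hy1, mem_iInter₂.2 ((hY _ _).1 hy2),
        mem_iInter₂.2 ((hY _ _).1 (hy3 i (Finset.mem_range.1 (hI hi)) ?_))⟩⟩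
      rintro rfl
      exact hj2 hi)
  have hz' : ∀ j < d + 2, z ∈ C j := fun j hj => mem_iInter₂.1 hz j (Finset.mem_range.2 hj)
  obtain ⟨z', hz1⟩ := perturb f z b (fun i _ => by rw [hb]; exact one_ne_zero)
  have hz2 : ∀ i, f i z' < 0 ↔ f i z < 0 := fun i => by
    rw [(hz1 i).2, hb]
    constructor
    · rintro (h | ⟨_, h⟩)
      · exact h
      · linarith
    · exact Or.inl
  have hmem : S.reg ⟨z', fun i => (hz1 i).1⟩ ∈ ((supT (List.range (d + 2))).eval v).right := by
    rw [hright]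
    refine ⟨(hY _ _).2 fun i hi => (hz2 i).2 ?_, fun j hj => (hY _ _).2 fun i hi => (hz2 i).2 ?_⟩
    · exact mem_iInter₂.1 (hz' 0 (by omega)).2.1 i hi
    · exact mem_iInter₂.1 (hz' j (List.mem_range.1 hj)).2.2 i hi
  have h5 := (S.le_iff _ _).1 ((mem_left_iff _ _).1 hx.2 _ hmem) e he
  have h6 : 0 < f e z := (hz' 0 (by omega)).1
  exact absurd ((hz2 e).1 h5) (not_lt.2 h6.le)

end Pool.Agent.H400Z.Reg
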